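import Pool.Agent.MP_c69980_ag.H43.Spec6

/-!
Degrees of curves and numbers of preimages of hyperplanes.
-/

set_option autoImplicit false

namespace Pool.Agent.MP_c69980_ag.H43

open MvPolynomial H60 Finset

variable {L : Type} [Field L] [Algebra ℂ L] {N : ℕ}

lemma htBd_val (h : FFd L) (P : Pl L) {w : Fin N → L} (hw : ∀ i, w i ∈ P.V) (R : PR N) :
    aeval w R ∈ P.V ∧ P.val (aeval w R) = eval (fun i => P.val (w i)) R := by
  obtain ⟨χ, h1, h2⟩ := h.a.hom P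
  let ι : ℂ →+* P.V := (algebraMap ℂ L).codRestrict P.V P.const
  have a1 : ((eval₂ ι (fun i => ⟨w i, hw i⟩) R : P.V) : L) = aeval w R :=
    eval₂_comp_left P.V.subtype ι (fun i => ⟨w i, hw i⟩) R
  have a2 := eval₂_comp_left χ ι (fun i => ⟨w i, hw i⟩) R
  have a3 : χ.comp ι = RingHom.id ℂ := RingHom.ext fun c => (h1 _).trans (h2 c)
  rw [h1, a1, a3] at a2
  refine ⟨a1 ▸ Subtype.prop _, a2.trans ?_⟩
  exact congrArg (fun z => eval z R) (funext fun i => h1 _)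

lemma htBd_zero (h : FFd L) (P : Pl L) {x : L} (hx : x ∈ P.V) : P.Zero x ↔ P.val x = 0 := by
  simpa using h.a.val P x hx 0

lemma htBd_loc (h : FFd L) {P : Pl L} {y : Fin N → L} {x : PS N} (hr : Red P y x) :
    ∃ j, y j ≠ 0 ∧ (∀ i, y i / y j ∈ P.V) ∧ ∀ (R : PR N) (e : ℕ), R.IsHomogeneous e →
      (eval x.rep R = 0 ↔ P.Zero (aeval y R / y j ^ e)) := by
  obtain ⟨c, hc, hz, rfl⟩ := hr
  obtain ⟨j, hj⟩ := Function.ne_iff.1 hz
  obtain ⟨j1, j2⟩ := not_or.1 (mt (htBd_zero h P (hc j)).1 hj)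
  have j3 : (c * y j)⁻¹ ∈ P.V := (h.a.mem P _ (inv_ne_zero j1)).2 (by rw [h.ord_inv]; omega)
  have j4 := right_ne_zero_of_mul j1
  have m : ∀ i, y i / y j ∈ P.V := fun i => by
    rw [← mul_div_mul_left _ _ (left_ne_zero_of_mul j1), div_eq_mul_inv]
    exact mul_mem (hc i) j3
  refine ⟨j, j4, m, fun R e hR => ?_⟩
  obtain ⟨u, hu⟩ := Projectivization.exists_smul_eq_mk_rep ℂ _ hz
  obtain ⟨χ, h1, -⟩ := h.a.hom P
  have a1 : (fun i => P.val (c * y i)) = P.val (c * y j) • fun i => P.val (y i / y j) :=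
    funext fun i => by
      have := map_mul χ ⟨_, hc j⟩ ⟨_, m i⟩
      simp only [h1, MulMemClass.coe_mul] at this
      rw [Pi.smul_apply, smul_eq_mul, ← this, mul_assoc, mul_div_cancel₀ _ j4]
  have a2 : aeval y R / y j ^ e = aeval (fun i => y i / y j) R := by
    rw [show (fun i => y i / y j) = (y j)⁻¹ • y from funext fun i => div_eq_inv_mul _ _,
      aeval_smul_hom hR, inv_pow, div_eq_inv_mul]
  obtain ⟨a3, a4⟩ := htBd_val h P m R
  rw [a2, htBd_zero h P a3, a4, ← hu, a1, Units.smul_def, eval_smul_hom hR, eval_smul_hom hR,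
    mul_eq_zero, mul_eq_zero, or_iff_right (pow_ne_zero _ u.ne_zero),
    or_iff_right (pow_ne_zero _ hj)]

lemma htBd_inf (h : FFd L) : Infinite (Pl L) := by
  obtain ⟨T, hT, -⟩ := h.ff
  refine Infinite.of_surjective (fun P : Pl L => P.val T) fun a => ?_
  have a1 : ¬∀ P : Pl L, (T - algebraMap ℂ L a)⁻¹ ∈ P.V := fun k => by
    obtain ⟨b, hb⟩ := h.b.const _ k
    rw [inv_eq_iff_eq_inv, sub_eq_iff_eq_add, ← map_inv₀, ← map_add] at hb
    exact hT (hb ▸ isAlgebraic_algebraMap _)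
  obtain ⟨P, hP⟩ := not_forall.1 a1
  have a2 := (P.V.mem_or_inv_mem _).resolve_right hP
  have a3 : T - algebraMap ℂ L a ≠ 0 := fun e => hP (by rw [e, inv_zero]; exact zero_mem _)
  rw [h.a.mem P _ (inv_ne_zero a3), h.ord_inv] at hP
  exact ⟨P, (h.a.val P T (by simpa using add_mem a2 (P.const a)) a).1 (Or.inr (by omega))⟩

/-- A linear form. -/
noncomputable def htBdL (l : Fin N → ℂ) : PR N := ∑ i, C (l i) * X i

lemma htBd_hom (l : Fin N → ℂ) : (htBdL l).IsHomogeneous 1 :=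
  IsHomogeneous.sum _ _ _ fun i _ => (isHomogeneous_X ℂ i).C_mul _

lemma htBd_eval (l x : Fin N → ℂ) : eval x (htBdL l) = l ⬝ᵥ x := by
  simp [htBdL, dotProduct]

lemma htBd_aeval (l : Fin N → ℂ) (y : Fin N → L) :
    aeval y (htBdL l) = ∑ i, algebraMap ℂ L (l i) * y i := by
  simp [htBdL]

lemma htBd_sum (h : FFd L) (P : Pl L) (x : Fin N → L) (s : Finset (Fin N)) :
    lam P (∑ i ∈ s, x i) ≤ ∑ i ∈ s, lam P (x i) :=
  le_sum_of_subadditive (lam P) (lam_zero P).le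
    (fun a b => (h.lam_add P a b).trans (max_le (Nat.le_add_right _ _) (Nat.le_add_left _ _))) s x

variable {r : ℕ} {C : Set (PS r)} {v : Fin r → L} {pl : C → Pl L} {f : C → PS N} {y : Fin N → L}

lemma htBd_fin (hC : Cv C v pl) (hf : ∀ c, Red (pl c) y (f c)) {R : PR N} {e : ℕ}
    (hR : R.IsHomogeneous e) (h0 : aeval y R ≠ 0) : {c | eval (f c).rep R = 0}.Finite := by
  refine ((Set.finite_iUnion fun j => hC.ff.b.fin (aeval y R / y j ^ e)).preimage
    hC.inj.injOn).subset fun c hc => ?_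
  obtain ⟨j, j1, -, j3⟩ := htBd_loc hC.ff (hf c)
  exact Set.mem_iUnion.2 ⟨j, (((j3 R e hR).1 hc).resolve_left
    (div_ne_zero h0 (pow_ne_zero _ j1))).ne'⟩

lemma htBd_three (hC : Cv C v pl) (hf : ∀ c, Red (pl c) y (f c)) {R : PR N} {e : ℕ}
    (hR : R.IsHomogeneous e) : aeval y R ≠ 0 ↔ ∃ c, eval (f c).rep R ≠ 0 := by
  refine ⟨fun h0 => by_contra fun k => ?_, fun ⟨c, hc⟩ h0 => hc ?_⟩
  · have := htBd_inf hC.ff
    refine Set.infinite_of_finite_compl hC.cof (((htBd_fin hC hf hR h0).image pl).subset ?_)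
    rintro _ ⟨c, rfl⟩
    exact ⟨c, not_not.1 (not_exists.1 k c), rfl⟩
  · obtain ⟨j, -, -, j3⟩ := htBd_loc hC.ff (hf c)
    exact (j3 R e hR).2 (Or.inl (by rw [h0, zero_div]))

lemma htBd_one (hC : Cv C v pl) (hf : ∀ c, Red (pl c) y (f c)) (l : Fin N → ℂ)
    (hl : ∃ c, l ⬝ᵥ (f c).rep ≠ 0) : {c | l ⬝ᵥ (f c).rep = 0}.encard ≤ ht y := by
  classical
  have h := hC.ff
  simp only [← htBd_eval] at hl ⊢
  have s0 := (htBd_three hC hf (htBd_hom l)).2 hl
  have fin := (htBd_fin hC hf (htBd_hom l) s0).image pl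
  obtain ⟨b, b0, -⟩ := htBd_loc h (hf hl.choose)
  rw [← hC.inj.encard_image, fin.encard_eq_coe_toFinset_card, Nat.cast_le]
  generalize hs : aeval y (htBdL l) = s at s0
  have a1 : ∀ P, lam P (s / y b) ≤ ∑ i, lam P (y i / y b) := fun P => by
    rw [← hs, htBd_aeval, sum_div]
    refine (htBd_sum h P _ _).trans (sum_le_sum fun i _ => ?_)
    rw [mul_div_assoc]
    exact (h.lam_mul P _ _).trans_eq (by rw [h.lam_const, zero_add])
  have a2 : ∀ P, lam P (s / y b) + (if P ∈ fin.toFinset then 1 else 0) ≤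
      ∑ i, lam P (y i / y b) + lam P (s / y b)⁻¹ := fun P => by
    split_ifs with hP
    · obtain ⟨c, hc, rfl⟩ := fin.mem_toFinset.1 hP
      obtain ⟨j, j1, -, j3⟩ := htBd_loc h (hf c)
      have b1 := ((j3 _ 1 (htBd_hom l)).1 hc).resolve_left
        (div_ne_zero (hs ▸ s0) (pow_ne_zero _ j1))
      rw [hs, pow_one] at b1
      have b2 := h.a.mul (pl c) _ _ (div_ne_zero s0 j1) (div_ne_zero j1 b0)
      rw [div_mul_div_cancel₀ j1] at b2
      have b3 := single_le_sum (f := fun i => lam (pl c) (y i / y b)) (fun _ _ => Nat.zero_le _)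
        (mem_univ j)
      generalize ∑ i, lam (pl c) (y i / y b) = t at b3 ⊢
      simp only [lam, h.ord_inv] at b3 ⊢
      omega
    · exact (a1 P).trans (Nat.le_add_right _ _)
  have a3 : ∀ T : Finset (Pl L), ∑ P ∈ T, lam P (s / y b) + fin.toFinset.card ≤
      ∑ i, deg (y i / y b) + deg (s / y b)⁻¹ := fun T => by
    have b1 := sum_le_sum (s := T ∪ fin.toFinset) fun P _ => a2 P
    rw [sum_add_distrib, sum_add_distrib, sum_ite_mem, inter_eq_right.2 subset_union_right,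
      ← card_eq_sum_ones, sum_comm] at b1
    exact (Nat.add_le_add_right (sum_le_sum_of_subset subset_union_left) _).trans (b1.trans
      (add_le_add (sum_le_sum fun i _ => h.sum_le_deg _ _) (h.sum_le_deg _ _)))
  have a4 := a3 (h.lam_fin (s / y b)).toFinset
  rw [← finsum_eq_sum _ (h.lam_fin _), h.deg_inv] at a4
  refine (Nat.le_of_add_le_add_left (a4.trans_eq (add_comm _ _))).trans (sum_le_sum fun i _ => ?_)
  exact single_le_sum (f := fun b => deg (y i / y b)) (fun _ _ => Nat.zero_le _) (mem_univ b)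

lemma htBd_two (H : SCd) (hC : Cv C v pl) (hf : ∀ c, Red (pl c) y (f c)) {d : ℕ}
    (hd : ∀ l : Fin N → ℂ, (∃ c, l ⬝ᵥ (f c).rep ≠ 0) → {c | l ⬝ᵥ (f c).rep = 0}.encard ≤ d)
    (i b : Fin N) : deg (y i / y b) ≤ d := by
  classical
  have h := hC.ff
  by_cases k : ∃ a, y i / y b = algebraMap ℂ L a
  · obtain ⟨a, ha⟩ := k
    rw [ha, h.deg_const]
    exact Nat.zero_le _
  have b0 : y b ≠ 0 := fun e => k ⟨0, by rw [e, div_zero, map_zero]⟩
  have := htBd_inf h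
  obtain ⟨D, S, m, χ, hD, -⟩ := H L h ∅ (Classical.arbitrary _) (notMem_empty _)
  obtain ⟨a, ha⟩ := (((S.finite_toSet.union hC.cof).union (h.b.fin (D (y i / y b)))).image
    fun P : Pl L => P.val (y i / y b)).exists_notMem
  obtain ⟨ψ, hψ⟩ : ∃ ψ, ψ = y i / y b - algebraMap ℂ L a := ⟨_, rfl⟩
  have ψ0 : ψ ≠ 0 := fun e => k ⟨a, sub_eq_zero.1 (hψ ▸ e)⟩
  have e1 : y i / y b = ψ + algebraMap ℂ L a := by rw [hψ, sub_add_cancel]
  have e2 : aeval y (htBdL (Pi.single i 1 - Pi.single b a)) = ψ * y b := by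
    rw [htBd_aeval, hψ, sub_mul, div_mul_cancel₀ _ b0]
    simp [sub_mul, Pi.single_apply, apply_ite (algebraMap ℂ L)]
  have hZ := hd (Pi.single i 1 - Pi.single b a) (by
    simp only [← htBd_eval]
    exact (htBd_three hC hf (htBd_hom _)).1 (e2 ▸ mul_ne_zero ψ0 b0))
  have key : ∀ P : Pl L, lam P ψ⁻¹ ≠ 0 → lam P ψ⁻¹ = 1 ∧
      P ∈ pl '' {c | (Pi.single i 1 - Pi.single b a) ⬝ᵥ (f c).rep = 0} := fun P hP => by
    have a1 : 0 < P.ord ψ := by
      simp only [lam, h.ord_inv] at hP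
      omega
    have a2 : y i / y b ∈ P.V := e1 ▸ add_mem ((h.a.mem P _ ψ0).2 a1.le) (P.const a)
    have a3 := fun k => ha ⟨P, k, (h.a.val P _ a2 a).1 (Or.inr (hψ ▸ a1))⟩
    have a4 := (hD.ord P ψ a1.ne').2
    have a5 : D ψ = D (y i / y b) := by rw [hψ, map_sub, D.map_algebraMap, sub_zero]
    rw [a5, not_not.1 fun k => a3 (Or.inr k), hD.one P fun k => a3 (Or.inl (Or.inl k))] at a4
    obtain ⟨c, rfl⟩ := not_not.1 fun k => a3 (Or.inl (Or.inr k))
    refine ⟨by simp only [lam, h.ord_inv]; omega, c, ?_, rfl⟩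
    obtain ⟨j, j1, j2, j3⟩ := htBd_loc h (hf c)
    have a6 := (h.a.mem _ _ (div_ne_zero b0 j1)).1 (j2 b)
    refine (htBd_eval _ _).symm.trans ((j3 _ 1 (htBd_hom _)).2 (Or.inr ?_))
    rw [e2, pow_one, mul_div_assoc, h.a.mul _ _ _ ψ0 (div_ne_zero b0 j1)]
    omega
  rw [e1]
  refine (h.deg_add _ _).trans ?_
  rw [h.deg_const, add_zero, ← h.deg_inv]
  refine h.deg_le _ fun T => ?_
  rw [← sum_filter_ne_zero, sum_congr rfl fun P hP => (key P (mem_filter.1 hP).2).1,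
    ← card_eq_sum_ones, ← Nat.cast_le (α := ℕ∞), ← Set.encard_coe_eq_coe_finsetCard]
  exact (Set.encard_le_encard fun P hP => (key P (mem_filter.1 hP).2).2).trans
    ((Set.encard_image_le _ _).trans hZ)

theorem sHtBd (h : SCd) : SHtBd := by
  intro r N C L _ _ v pl f y hC hf
  refine ⟨htBd_one hC hf, fun d hd => ?_, fun R e hR => htBd_three hC hf hR⟩
  refine (sum_le_sum fun i _ => sum_le_sum fun b _ => htBd_two h hC hf hd i b).trans_eq ?_
  simp [sq, mul_assoc]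

end Pool.Agent.MP_c69980_ag.H43
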