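import Pool.Agent.MP_c69980_ag.H43.Spec5

/-!
A proper subvariety is not invariant under all the vector fields.
-/

set_option autoImplicit false

namespace Pool.Agent.MP_c69980_ag.H43

open MvPolynomial H60 Finset

lemma pf_emb (h1 : SEmb) {ι : Type} [Finite ι] (k : Subfield ℂ) (hk : Countable k)
    (p : Ideal (MvPolynomial ι ℂ)) [p.IsPrime] : ∃ φ : MvPolynomial ι ℂ →+* ℂ,
      (∀ x, φ x = 0 ↔ x ∈ p) ∧ ∀ P, Cf k P → eval (fun x => φ (X x)) P = φ P := by
  obtain ⟨ψ, hψ⟩ := h1.1 k hk (MvPolynomial ι ℂ ⧸ p) (by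
    refine (Cardinal.mk_le_of_surjective Ideal.Quotient.mk_surjective).trans
      (cardinalMk_le_max.trans (max_le (max_le Cardinal.mk_complex.le ?_)
        Cardinal.aleph0_le_continuum))
    exact Cardinal.mk_le_aleph0.trans Cardinal.aleph0_le_continuum)
  refine ⟨ψ.toRingHom.comp (Ideal.Quotient.mk p), fun x => ?_, fun P hP => ?_⟩
  · rw [← Ideal.Quotient.eq_zero_iff_mem]
    exact map_eq_zero_iff ψ hψ
  · obtain ⟨P', rfl⟩ := cf_iff.1 hP
    refine RingHom.congr_fun (f := (eval _).comp (map k.subtype))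
      (g := (ψ.toRingHom.comp (Ideal.Quotient.mk p)).comp (map k.subtype))
      (ringHom_ext (fun c => ?_) fun i => by simp) P'
    simp only [RingHom.comp_apply, map_C, eval_C]
    exact (ψ.commutes c).symm

theorem sPf (h1 : SEmb) (h2 : SExt) (h3 : SInd) (h4 : SDimt) (h5 : SKei) : SPf := by
  intro t a M n w Θ PP K _ _ U z u m J γ E β p b g h tk hβ hp hker ⟨P, hP, hP0⟩ hb hc
  choose c hc using hc
  let δ : Fin m → Derivation ℂ (CP M t) (CP M t) := fun l =>
    mkDerivation ℂ fun x => ∑ i, c l i * PP β i x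
  have hδ : ∀ l x, δ l (X x) = ∑ i, c l i * PP β i x := fun l x => mkDerivation_X _ _ _
  have hA : ∀ l F, aeval (co β u) (δ l F) = aeval (co β u) b * E l (aeval (co β u) F) := by
    intro l F
    induction F using MvPolynomial.induction_on with
    | C a => simp [derivation_C]
    | add p q hp hq => simp only [map_add, hp, hq, mul_add]
    | mul_X F x ih =>
      have e : aeval (co β u) (δ l (X x)) = aeval (co β u) b * E l (co β u x) := by
        simp only [hδ, tk.act β hβ, vf, map_sum, map_mul, mul_sum, ← hc, mul_assoc]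
      simp only [Derivation.leibniz, smul_eq_mul, map_add, map_mul, aeval_X, ih, e]
      ring
  by_contra hne
  have hst : ∀ l, ∀ F ∈ p, δ l F ∈ p := fun l F hF => by_contra fun hN =>
    hne ⟨F, hF, l, _, hN, hA l F⟩
  obtain ⟨k, hk, gd⟩ := g.exists
  obtain ⟨φ, φ0, φe⟩ := pf_emb h1 k hk p
  have φk : ∀ Q, aeval (co β u) Q = 0 → φ Q = 0 := fun Q hQ => (φ0 Q).2 (hker Q hQ)
  choose D hD using fun l => h2.1 _ φ (φ.toAddMonoidHom.comp (δ l).toLinearMap.toAddMonoidHom)
    (fun x y => by simp) fun x hx => (φ0 _).2 (hst l x ((φ0 x).1 hx))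
  replace hD : ∀ l x, D l (φ x) = φ (δ l x) := hD
  obtain ⟨q, hq, e⟩ := gd.clh.chart (β := β) (y := fun x => φ (X x))
    (fun o => ⟨(hβ o).1, fun e => by
      have := φk (X (β o, none) * X (β none, o) - 1) (by
        simp only [map_sub, map_mul, aeval_X, map_one, co]
        rw [div_mul_div_cancel₀ (hβ none).2, div_self (hβ o).2, sub_self])
      simp [e] at this⟩)
    (fun c o => by
      have := φk (X (c, o) * X (β o, none) - X (c, none)) (by
        simp only [map_sub, map_mul, aeval_X, co]
        rw [div_mul_div_cancel₀ (hβ o).2, sub_self])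
      simpa [sub_eq_zero] using this)
    fun F d a1 a2 a3 => (φe (dh F) (a2.rename _)).trans
      (φk _ (by rw [eval_dh a1, h.hu F d a1 a3, zero_div]))
  have hi := h4 t a M w Θ PP k (φ.comp C).fieldRange q m (fun l i => φ (c l i)) D gd
    (Fintype.linearIndependent_iff.2 fun g hg i => by
      have e1 : ∀ l, φ (c l (J i)) = if l = i then φ b else 0 := fun l => by
        have := φk (c l (J i) - if l = i then b else 0) (by
          rw [map_sub, ← hc, tk.ech]
          split_ifs <;> simp)
        rw [map_sub, sub_eq_zero] at this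
        rw [this]
        split_ifs <;> simp
      have e2 := congrFun hg (J i)
      simp only [Finset.sum_apply, Pi.smul_apply, e1, smul_eq_mul, mul_ite, mul_zero, sum_ite_eq',
        mem_univ, if_true, Pi.zero_apply] at e2
      exact (mul_eq_zero.1 e2).resolve_right fun e3 => hb ((φ0 b).1 e3))
    fun l => ⟨by
      rintro _ ⟨a, rfl⟩
      rw [RingHom.comp_apply, hD, derivation_C, map_zero], (gd.tan_iff hq).2 fun x => by
      rw [e, hD, hδ, vf_eq, map_sum]
      exact sum_congr rfl fun i _ => by rw [map_mul, φe _ (gd.cf β i x)]⟩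
  obtain ⟨y0, y1, y2⟩ := h3.alg _ m (Set.range fun x => φ (X x)) (hi.mono le_rfl le_rfl
    fun x hx => by
      have := rat_FL (φ.comp C).fieldRange _ hx
      rw [FL_chart hq, e] at this
      exact isAlgebraic_algebraMap (⟨x, this⟩ : Subfield.closure _))
  choose y' hy' using y1
  have key := h5.2 ℂ (CP M t) (RingHom.ker (aeval (co β u) : CP M t →ₐ[ℂ] K)) p
    (RingHom.ker_isPrime _) hker m (fun i => X (y' i)) (fun H hH => by
      apply map_injective (φ.comp C).rangeRestrictField
        (φ.comp C).rangeRestrictField_bijective.1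
      rw [map_zero]
      apply algebraicIndependent_iff.1 y2
      rw [← (φ0 _).2 hH]
      refine RingHom.congr_fun
        (f := (aeval y0).toRingHom.comp (map (φ.comp C).rangeRestrictField))
        (g := φ.comp (aeval fun i => (X (y' i) : CP M t)).toRingHom)
        (ringHom_ext (fun c => ?_) fun i => by simp [← hy']) H
      simp only [RingHom.comp_apply, map_C, AlgHom.toRingHom_eq_coe, RingHom.coe_coe, algHom_C]
      rfl) P hP hP0
  have hind : AlgebraicIndependent ℂ fun i : Fin (m + 1) =>
      aeval (co β u) ((Fin.cons P fun i => X (y' i) : Fin (m + 1) → CP M t) i) :=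
    algebraicIndependent_iff.2 fun H hH => key H (by
      rw [RingHom.mem_ker, ← AlgHom.comp_apply, comp_aeval]
      exact hH)
  have := hind.cardinalMk_le_trdeg
  rw [tk.deg, Cardinal.mk_fin, Nat.cast_le] at this
  omega

end Pool.Agent.MP_c69980_ag.H43
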