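import Pool.Agent.MP_c69980_ag.H43.Spec10

/-!
Holomorphic maps with algebraic values are morphisms.
-/

set_option autoImplicit false

namespace Pool.Agent.MP_c69980_ag.H43

open H60 Finset Filter Topology Metric

variable {L : Type} [Field L] [Algebra ℂ L] {N : ℕ}

lemma ratP_zero (h : FFd L) (P : Pl L) {x : L} (hx : x ∈ P.V) : P.Zero x ↔ P.val x = 0 := by
  simpa using h.a.val P x hx 0

lemma ratP_mul (h : FFd L) (P : Pl L) {x y : L} (hx : x ∈ P.V) (hy : y ∈ P.V) :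
    P.val (x * y) = P.val x * P.val y := by
  obtain ⟨χ, h1, -⟩ := h.a.hom P
  simpa only [h1, MulMemClass.coe_mul] using map_mul χ ⟨x, hx⟩ ⟨y, hy⟩

lemma ratP_div (h : FFd L) (P : Pl L) {x y : L} (hx : x ∈ P.V) (hy : y ∈ P.V) (h0 : P.val y ≠ 0) :
    x / y ∈ P.V ∧ P.val (x / y) = P.val x / P.val y := by
  obtain ⟨j1, j2⟩ := not_or.1 (mt (ratP_zero h P hy).1 h0)
  have j3 : y⁻¹ ∈ P.V := (h.a.mem P _ (inv_ne_zero j1)).2 (by rw [h.ord_inv]; omega)
  have m : x / y ∈ P.V := by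
    rw [div_eq_mul_inv]
    exact mul_mem hx j3
  refine ⟨m, ?_⟩
  rw [eq_div_iff h0, ← ratP_mul h P m hy, div_mul_cancel₀ _ j1]

lemma ratP_unc (h : FFd L) : Uncountable (Pl L) := by
  obtain ⟨T, hT, -⟩ := h.ff
  have : Uncountable ℂ := Complex.ofReal_injective.uncountable
  refine Function.Surjective.uncountable (f := fun P : Pl L => P.val T) fun a => ?_
  have a1 : ¬∀ P : Pl L, (T - algebraMap ℂ L a)⁻¹ ∈ P.V := fun k => by
    obtain ⟨b, hb⟩ := h.b.const _ k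
    rw [inv_eq_iff_eq_inv, sub_eq_iff_eq_add, ← map_inv₀, ← map_add] at hb
    exact hT (hb ▸ isAlgebraic_algebraMap _)
  obtain ⟨P, hP⟩ := not_forall.1 a1
  have a2 := (P.V.mem_or_inv_mem _).resolve_right hP
  have a3 : T - algebraMap ℂ L a ≠ 0 := fun e => hP (by rw [e, inv_zero]; exact zero_mem _)
  rw [h.a.mem P _ (inv_ne_zero a3), h.ord_inv] at hP
  exact ⟨P, (h.a.val P T (by simpa using add_mem a2 (P.const a)) a).1 (Or.inr (by omega))⟩

lemma ratP_mem (h : FFd L) (P : Pl L) {x : L} (hx : 0 ≤ P.ord x) : x ∈ P.V := by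
  by_cases e : x = 0
  · rw [e]
    exact zero_mem _
  · exact (h.a.mem P x e).2 hx

/-- The residue field of a subfield. -/
def ratPK (h : FFd L) (P : Pl L) (K : Subfield L) : Subfield ℂ where
  carrier := {c | ∃ a ∈ K, a ∈ P.V ∧ P.val a = c}
  zero_mem' := ⟨0, zero_mem _, zero_mem _, (ratP_zero h P (zero_mem _)).1 (Or.inl rfl)⟩
  one_mem' := ⟨1, one_mem _, one_mem _, by simpa using (h.a.hom P).choose_spec.2 1⟩
  mul_mem' := by
    rintro _ _ ⟨a, a1, a2, rfl⟩ ⟨b, b1, b2, rfl⟩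
    exact ⟨a * b, mul_mem a1 b1, mul_mem a2 b2, ratP_mul h P a2 b2⟩
  add_mem' := by
    rintro _ _ ⟨a, a1, a2, rfl⟩ ⟨b, b1, b2, rfl⟩
    obtain ⟨χ, h1, -⟩ := h.a.hom P
    exact ⟨a + b, add_mem a1 b1, add_mem a2 b2, by
      simpa only [h1, AddMemClass.coe_add] using map_add χ ⟨a, a2⟩ ⟨b, b2⟩⟩
  neg_mem' := by
    rintro _ ⟨a, a1, a2, rfl⟩
    obtain ⟨χ, h1, -⟩ := h.a.hom P
    exact ⟨-a, neg_mem a1, neg_mem a2, by
      simpa only [h1, NegMemClass.coe_neg] using map_neg χ ⟨a, a2⟩⟩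
  inv_mem' := by
    rintro _ ⟨a, a1, a2, rfl⟩
    by_cases e : P.val a = 0
    · exact ⟨a, a1, a2, by rw [e, inv_zero]⟩
    · obtain ⟨b1, b2⟩ := ratP_div h P (one_mem _) a2 e
      have b3 : P.val 1 = 1 := by simpa using (h.a.hom P).choose_spec.2 1
      exact ⟨1 / a, div_mem (one_mem _) a1, b1, by rw [b2, b3, one_div]⟩

/-- A binary form. -/
def ratPH {d : ℕ} (a : Fin (d + 1) → ℂ) (x y : ℂ) : ℂ :=
  ∑ k, a k * x ^ (k : ℕ) * y ^ (d - k)

lemma ratP_hom {d : ℕ} (a : Fin (d + 1) → ℂ) (c x y : ℂ) :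
    ratPH a (c * x) (c * y) = c ^ d * ratPH a x y := by
  unfold ratPH
  rw [mul_sum]
  refine sum_congr rfl fun k _ => ?_
  have e : c ^ d = c ^ (k : ℕ) * c ^ (d - k) := by
    rw [← pow_add, Nat.add_sub_cancel' (Nat.lt_succ_iff.1 k.2)]
  rw [e]
  ring

lemma ratP_deh {d : ℕ} (a : Fin (d + 1) → ℂ) (x : ℂ) {y : ℂ} (hy : y ≠ 0) :
    ratPH a x y = 0 ↔ ∑ k, a k * (x / y) ^ (k : ℕ) = 0 := by
  have e := ratP_hom a y (x / y) 1
  rw [mul_div_cancel₀ _ hy, mul_one] at e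
  rw [e, mul_eq_zero, or_iff_right (pow_ne_zero _ hy)]
  simp only [ratPH, one_pow, mul_one]

lemma ratP_top {d : ℕ} (a : Fin (d + 1) → ℂ) (x : ℂ) : ratPH a x 0 = a (Fin.last d) * x ^ d := by
  unfold ratPH
  rw [Fin.sum_univ_castSucc, sum_eq_zero, zero_add]
  · simp
  · intro k _
    rw [zero_pow, mul_zero]
    have := k.2
    simp only [Fin.val_castSucc]
    omega

lemma ratP_alg (h : FFd L) (P : Pl L) (K : Subfield L) {E : Subfield ℂ} (hE : E ≤ ratPK h P K)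
    {x : ℂ} (hx : IsAlgebraic E x) : ∃ (d : ℕ) (A : Fin (d + 1) → K), A (Fin.last d) ≠ 0 ∧
      ∑ k, P.val (A k : L) * x ^ (k : ℕ) = 0 := by
  obtain ⟨p, p0, p1⟩ := hx
  choose A a1 a2 a3 using fun k : Fin (p.natDegree + 1) => hE (p.coeff k).2
  refine ⟨p.natDegree, fun k => ⟨A k, a1 k⟩, fun e => ?_, ?_⟩
  · have e1 : A (Fin.last _) = 0 := congrArg Subtype.val e
    have e2 := a3 (Fin.last _)
    rw [e1, (ratP_zero h P (zero_mem _)).1 (Or.inl rfl)] at e2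
    exact Polynomial.leadingCoeff_ne_zero.2 p0 (Subtype.ext e2.symm)
  · rw [Polynomial.aeval_eq_sum_range, ← Fin.sum_univ_eq_sum_range (fun k => p.coeff k • x ^ k)] at p1
    rw [← p1]
    exact sum_congr rfl fun k _ => by rw [a3 k]; rfl

lemma ratP_cnt {α : ℂ → Pl L} {ε : ℝ} (h0 : 0 < ε) (hi : Set.InjOn α (ball 0 ε)) {C : Set (Pl L)}
    (hC : C.Countable) : ¬∀ᶠ s in 𝓝[≠] 0, α s ∈ C := fun k => by
  have a1 : (ball 0 ε ∩ α ⁻¹' C).Countable :=
    Set.MapsTo.countable_of_injOn (f := α) (fun _ a => a.2) (hi.mono Set.inter_subset_left) hC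
  have a2 : insert 0 (ball 0 ε ∩ α ⁻¹' C) ∈ 𝓝 (0 : ℂ) := by
    rw [insert_mem_nhds_iff]
    exact inter_mem (mem_nhdsWithin_of_mem_nhds (ball_mem_nhds 0 h0)) k
  obtain ⟨s, s1, s2⟩ := ((a1.insert 0).dense_compl ℂ).inter_nhds_nonempty a2
  exact s1 s2

lemma ratP_fin {α : ℂ → Pl L} {ε : ℝ} (h0 : 0 < ε) (hi : Set.InjOn α (ball 0 ε)) {C : Set (Pl L)}
    (hC : C.Finite) : ∀ᶠ s in 𝓝[≠] 0, α s ∉ C := by
  have a1 : (ball 0 ε ∩ α ⁻¹' C).Finite :=
    Set.Finite.of_injOn (f := α) (fun _ a => a.2) (hi.mono Set.inter_subset_left) hC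
  filter_upwards [nhdsNE_le_cofinite 0 a1.compl_mem_cofinite,
    mem_nhdsWithin_of_mem_nhds (ball_mem_nhds 0 h0)] with s a b c
  exact a ⟨b, c⟩

/-- The identity theorem. -/
lemma ratP_ext (h2 : SConn) (h3 : SArcP) (h : FFd L) (S : Finset (Pl L)) (W : Set (Pl L))
    (hW : ∀ (α : ℂ → Pl L) (ε : ℝ), 0 < ε → Arc α (ball 0 ε) → α 0 ∉ S →
      ∃ G : ℂ → ℂ, AnalyticAt ℂ G 0 ∧ ∀ᶠ s in 𝓝 0, (α s ∈ W ↔ G s = 0)) :
    W.Countable ∨ ∀ P ∉ S, P ∈ W := by
  have k : ∀ (α : ℂ → Pl L) (ε : ℝ), 0 < ε → Arc α (ball 0 ε) → α 0 ∉ S →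
      (∀ᶠ s in 𝓝 0, α s ∈ W) ∨ ∀ᶠ s in 𝓝[≠] 0, α s ∉ W := fun α ε a b c => by
    obtain ⟨G, g1, g2⟩ := hW α ε a b c
    refine g1.eventually_eq_zero_or_eventually_ne_zero.imp (fun e => ?_) fun e => ?_
    · filter_upwards [e, g2] with s x y using y.2 x
    · filter_upwards [e, g2.filter_mono nhdsWithin_le_nhds] with s x y z using x (y.1 z)
  refine (h2 L h S W fun α ε a b _ c =>
    (k α ε a b c).imp_left fun e => e.filter_mono nhdsWithin_le_nhds).imp_right fun hc P hP => ?_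
  obtain ⟨α, ε, a, rfl, b, c, -⟩ := h3 L h P
  exact ((k α ε a b hP).resolve_right (ratP_cnt a c hc)).self_of_nhds

lemma ratP_hol {S : Finset (Pl L)} {φ : Pl L → PS N} (hφ : HolM S φ) {α : ℂ → Pl L} {ε : ℝ}
    (h0 : 0 < ε) (hα : Arc α (ball 0 ε)) (hS : α 0 ∉ S) : ∃ g : Fin N → ℂ → ℂ,
      (∀ i, AnalyticAt ℂ (g i) 0) ∧
        ∀ᶠ s in 𝓝 0, ∃ c : ℂ, c ≠ 0 ∧ ∀ i, (φ (α s)).rep i = c * g i s := by
  obtain ⟨g, g1, g2⟩ := hφ α ε h0 hα hS
  refine ⟨fun i s => g s i, analyticAt_pi_iff.1 g1, g2.mono fun s ⟨a, b⟩ => ?_⟩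
  obtain ⟨u, hu⟩ := Projectivization.exists_smul_eq_mk_rep ℂ _ a
  exact ⟨u, u.ne_zero, fun i => by rw [b, ← hu]; rfl⟩

lemma ratP_form (h2 : SConn) (h3 : SArcP) (h : FFd L) {S S' : Finset (Pl L)} {φ : Pl L → PS N}
    (hφ : HolM S φ) {d : ℕ} (A : Fin (d + 1) → L) (hS : ∀ P ∉ S', P ∉ S ∧ ∀ k, A k ∈ P.V)
    (i j : Fin N) :
    {P : Pl L | ratPH (fun k => P.val (A k)) ((φ P).rep i) ((φ P).rep j) = 0}.Countable ∨
      ∀ P ∉ S', ratPH (fun k => P.val (A k)) ((φ P).rep i) ((φ P).rep j) = 0 := by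
  refine ratP_ext h2 h3 h S' _ fun α ε a b c => ?_
  obtain ⟨g, g1, g2⟩ := ratP_hol hφ a b (hS _ c).1
  refine ⟨fun s => ratPH (fun k => (α s).val (A k)) (g i s) (g j s), ?_, g2.mono ?_⟩
  · exact Finset.analyticAt_fun_sum _ fun k _ =>
      ((b 0 (mem_ball_self a) _ ((hS _ c).2 k)).2.mul ((g1 i).pow _)).mul ((g1 j).pow _)
  · rintro s ⟨u, u0, u1⟩
    change ratPH _ _ _ = 0 ↔ _
    rw [u1, u1, ratP_hom, mul_eq_zero, or_iff_right (pow_ne_zero _ u0)]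

lemma ratP_j (h2 : SConn) (h3 : SArcP) (h : FFd L) {S : Finset (Pl L)} {φ : Pl L → PS N}
    (hφ : HolM S φ) : ∃ j, {P | (φ P).rep j = 0}.Countable := by
  by_contra k
  have := ratP_unc h
  obtain ⟨P, hP⟩ := S.exists_notMem
  refine (φ P).rep_nonzero (funext fun j => ?_)
  refine (ratP_ext h2 h3 h S {P | (φ P).rep j = 0} fun α ε a b c => ?_).resolve_left
    (not_exists.1 k j) P hP
  obtain ⟨g, g1, g2⟩ := ratP_hol hφ a b c
  refine ⟨g j, g1 j, g2.mono ?_⟩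
  rintro s ⟨u, u0, u1⟩
  change _ = 0 ↔ _
  rw [u1, mul_eq_zero, or_iff_right u0]

lemma ratP_red (h3 : SArcP) (h : FFd L) {S S' : Finset (Pl L)} {φ : Pl L → PS N} (hφ : HolM S φ)
    {j : Fin N} {y : Fin N → L} (hj : ∀ P ∉ S', (φ P).rep j ≠ 0)
    (hy : ∀ i, ∀ P ∉ S', y i ∈ P.V ∧ P.val (y i) = (φ P).rep i / (φ P).rep j) (P : Pl L)
    (hP : P ∉ S) : Red P y (φ P) := by
  obtain ⟨α, ε, a, rfl, b, c, o⟩ := h3 L h P
  obtain ⟨g, g1, g2⟩ := ratP_hol hφ a b hP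
  obtain ⟨u, u0, u1⟩ := g2.self_of_nhds
  obtain ⟨i0, hi⟩ := Function.ne_iff.1 (φ (α 0)).rep_nonzero
  have g0 : g i0 0 ≠ 0 := right_ne_zero_of_mul (u1 i0 ▸ hi)
  have key : ∀ i, y i / y i0 ∈ (α 0).V ∧ (α 0).val (y i / y i0) = g i 0 / g i0 0 := fun i => by
    have an : AnalyticAt ℂ (fun s => g i s / g i0 s) 0 := (g1 i).div (g1 i0) g0
    have ev : (fun s => (α s).val (y i / y i0)) =ᶠ[𝓝[≠] 0] fun s => g i s / g i0 s := by
      filter_upwards [ratP_fin a c S'.finite_toSet, g2.filter_mono nhdsWithin_le_nhds,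
        ((g1 i0).continuousAt.eventually_ne g0).filter_mono nhdsWithin_le_nhds] with s x ⟨v, v0, v1⟩ z
      have w := hj _ x
      have w0 : (α s).val (y i0) ≠ 0 := by
        rw [(hy i0 _ x).2, v1 i0]
        exact div_ne_zero (mul_ne_zero v0 z) w
      rw [(ratP_div h _ (hy i _ x).1 (hy i0 _ x).1 w0).2, (hy i _ x).2, (hy i0 _ x).2,
        div_div_div_cancel_right₀ w, v1, v1, mul_div_mul_left _ _ v0]
    have m : y i / y i0 ∈ (α 0).V := by
      by_cases e : y i / y i0 = 0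
      · rw [e]
        exact zero_mem _
      · have t := an.meromorphicOrderAt_nonneg
        rw [← meromorphicOrderAt_congr ev, o _ e] at t
        exact ratP_mem h _ (by exact_mod_cast t)
    refine ⟨m, ?_⟩
    exact tendsto_nhds_unique_of_eventuallyEq
      ((b 0 (mem_ball_self a) _ m).2.continuousAt.tendsto.mono_left nhdsWithin_le_nhds)
      (an.continuousAt.tendsto.mono_left nhdsWithin_le_nhds) ev
  have e : (fun i => (α 0).val ((y i0)⁻¹ * y i)) = fun i => g i 0 / g i0 0 :=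
    funext fun i => by rw [← div_eq_inv_mul, (key i).2]
  have n : (fun i => (α 0).val ((y i0)⁻¹ * y i)) ≠ 0 := fun z => by
    have := congrFun (e.symm.trans z) i0
    rw [div_self g0] at this
    exact one_ne_zero this
  refine ⟨(y i0)⁻¹, fun i => div_eq_inv_mul (y i) (y i0) ▸ (key i).1, n, ?_⟩
  refine (φ (α 0)).mk_rep.symm.trans ((Projectivization.mk_eq_mk_iff' ℂ _ _ _ _).2
    ⟨u * g i0 0, funext fun i => ?_⟩)
  rw [e, Pi.smul_apply, smul_eq_mul, u1, mul_assoc, mul_div_cancel₀ _ g0]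

theorem sRatP (h1 : SRat) (h2 : SConn) (h3 : SArcP) : SRatP := by
  classical
  intro L _ _ h S N φ F ι _ T hF hφ hA
  have := ratP_unc h
  obtain ⟨j, hj⟩ := ratP_j h2 h3 h hφ
  let K : Subfield L := Subfield.closure (algebraMap ℂ L '' F ∪ Set.range T)
  have : Countable K := closure_countable
    (((Set.countable_coe_iff.1 hF).image _).union (Set.finite_range T).countable)
  have fin : ∀ {κ : Type} [Finite κ] (A : κ → L), (⋃ k, {P : Pl L | P.ord (A k) ≠ 0}).Finite :=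
    fun A => Set.finite_iUnion fun k => h.b.fin (A k)
  have key : ∀ i, ∃ (d : ℕ) (A : Fin (d + 1) → L), A (Fin.last d) ≠ 0 ∧ ∀ P ∉ S,
      (∀ k, P.ord (A k) = 0) →
        ratPH (fun k => P.val (A k)) ((φ P).rep i) ((φ P).rep j) = 0 := fun i => by
    by_contra n
    have c : ∀ B : Σ d : ℕ, {A : Fin (d + 1) → K // A (Fin.last d) ≠ 0},
        {P : Pl L | ratPH (fun k => P.val (B.2.1 k : L)) ((φ P).rep i) ((φ P).rep j) = 0}.Countable := by
      rintro ⟨d, A, A0⟩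
      refine (ratP_form h2 h3 h (S' := S ∪ (fin fun k => (A k : L)).toFinset) hφ
        (fun k => (A k : L)) (fun P hP => ?_) i j).resolve_right fun w => n ⟨d, fun k => A k,
          fun e => A0 (Subtype.ext e), fun P a b => w P (by simp [a, b])⟩
      simp only [mem_union, Set.Finite.mem_toFinset, Set.mem_iUnion, not_or, not_exists] at hP
      exact ⟨hP.1, fun k => ratP_mem h P (not_not.1 (hP.2 k)).ge⟩
    refine Set.not_countable_univ ((((Set.countable_iUnion c).union hj).union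
      (S.countable_toSet.union (fin T).countable)).mono fun P _ => ?_)
    by_cases a : P ∈ (S : Set (Pl L)) ∪ ⋃ k, {P : Pl L | P.ord (T k) ≠ 0}
    · exact Or.inr a
    by_cases b : (φ P).rep j = 0
    · exact Or.inl (Or.inr b)
    simp only [Set.mem_union, Set.mem_iUnion, not_or, not_exists] at a
    have le : Subfield.closure (F ∪ Set.range fun i => P.val (T i) : Set ℂ) ≤ ratPK h P K := by
      rw [Subfield.closure_le]
      rintro x (hx | ⟨k, rfl⟩)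
      · exact ⟨_, Subfield.subset_closure (Or.inl ⟨x, hx, rfl⟩), P.const x,
          (h.a.hom P).choose_spec.2 x⟩
      · exact ⟨_, Subfield.subset_closure (Or.inr ⟨k, rfl⟩),
          ratP_mem h P (not_not.1 (a.2 k)).ge, rfl⟩
    obtain ⟨d, A, A0, A1⟩ := ratP_alg h P K le (hA P a.1 _ ⟨i, j, rfl⟩)
    exact Or.inl (Or.inl (Set.mem_iUnion.2 ⟨⟨d, A, A0⟩, (ratP_deh _ _ b).2 A1⟩))
  choose d A A0 A1 using key
  let S' := S ∪ (fin fun x : Σ i, Fin (d i + 1) => A x.1 x.2).toFinset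
  have hS : ∀ P ∉ S', P ∉ S ∧ ∀ i k, P.ord (A i k) = 0 := fun P hP => by
    simp only [S', mem_union, Set.Finite.mem_toFinset, Set.mem_iUnion, not_or, not_exists] at hP
    exact ⟨hP.1, fun i k => not_not.1 (hP.2 ⟨i, k⟩)⟩
  have nz : ∀ P ∉ S', (φ P).rep j ≠ 0 := fun P hP e => by
    obtain ⟨i, hi⟩ := Function.ne_iff.1 (φ P).rep_nonzero
    have a := A1 i P (hS P hP).1 ((hS P hP).2 i)
    have b := (hS P hP).2 i (Fin.last _)
    rw [e, ratP_top, mul_eq_zero, or_iff_left (pow_ne_zero _ hi)] at a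
    exact (((ratP_zero h P (ratP_mem h P b.ge)).2 a).resolve_left (A0 i)).ne' b
  have rat : ∀ i, ∃ x : L, ∀ P ∉ S', x ∈ P.V ∧ P.val x = (φ P).rep i / (φ P).rep j := fun i => by
    refine h1 L h S' _ _ (A i) (fun α ε a b c => ?_) (fun e => A0 i (congrFun e _)) ?_
    · obtain ⟨g, g1, g2⟩ := ratP_hol hφ a b (hS _ c).1
      obtain ⟨u, -, u1⟩ := g2.self_of_nhds
      refine ((g1 i).div (g1 j) (right_ne_zero_of_mul (u1 j ▸ nz _ c))).congr (g2.mono ?_)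
      rintro s ⟨v, v0, v1⟩
      change g i s / g j s = (φ (α s)).rep i / (φ (α s)).rep j
      rw [v1, v1, mul_div_mul_left _ _ v0]
    · filter_upwards [S'.eventually_cofinite_notMem] with P hP
      exact (ratP_deh _ _ (nz P hP)).1 (A1 i P (hS P hP).1 ((hS P hP).2 i))
  choose y hy using rat
  exact ⟨y, ratP_red h3 h hφ nz hy⟩

end Pool.Agent.MP_c69980_ag.H43
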